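import Pool.Agent.U442.Sel.Any
import Pool.Agent.U442.Sel.Ecl

/-!
# The motivic Mumford-Tate conjecture: explicit products of hyperelliptic Jacobians with ALL motives whose
# ramification at some places is restricted, over arbitrary finitely generated fields

Let `K` be any field of characteristic different from two, for example finitely generated, and `F` an
algebraic closure of `K`. For `i` in a finite nonempty set let `f i` be a monic separable polynomial
over `K` of odd degree `n i ≥ 7`, whose Galois group contains all even permutations of the roots
(`BigGal`); `J i` is the Jacobian of the curve `y ^ 2 = f i (x)`, of dimension `(n i - 1) / 2`. The group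
`J i (F)` is the class group of the ring `F[x, y]` of the affine curve (the curve has one point at
infinity), and `V_2 (J i)` is its rational 2-adic Tate module. For each `i` let `v i` be a discrete
valuation of `K` and `r i > 0` a number such that (`EisensteinAt`) `f i` has coefficients in the
valuation ring, and

  `f i ≡ X ^ r i * g`  modulo the maximal ideal of `v i`, with `g(0)` a unit, and `f i (0)` has
  valuation one;

for instance all Eisenstein polynomials (`r i = n i`, `g = 1`).

Let `L` be an algebraic extension of `K` in `F`, and `Z` any motive over `L`, or any other object with a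
2-adic representation `τ` of the Galois group of `L` on a finite dimensional space `W` and a stable
lattice, of ANY rank `d`; only the matrices `t s`, over the 2-adic integers, of the automorphisms `s` are
used. We assume (`AllowedAt`), for each `i`: there is a normal extension `M` of `K` in `F` which
contains `L` and the roots of the other polynomials `f j`, `j ≠ i`, such that `t s` is trivial modulo two
for all `s` which fix `M`, and a valuation `w` of `M` which extends `v i` with a ramification index
`e` (so `w = e * v i` on `K` additively) not divisible by `r i`.

**Theorem.** (1) Then (`AllSplit`) there are Weil pairings on the `V_2 (J i)` such that for ALL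
representations `N` in the tensor category generated by `τ` and the Tate twists (`Generated`: obtained
from `τ` and characters with values in `ℤ_2ˣ` by tensor products, direct sums, duals,
subrepresentations and quotients; for instance the cohomology of all powers `Z ^ b` and their
direct summands) and all powers `A ^ a` of the product `A` of the `J i`, the Tate classes on `A ^ a` with
values in `N` are zero in odd degrees, and in even degrees they are linear combinations of the
products of divisor classes `ω i (x a) (y b) + ω i (x b) (y a)` on `A ^ a` with Tate classes of `N`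
(`Splits`).

(2) Let `R` be a Dedekind domain with finite residue fields and fraction field `K` (rings of integers,
coordinate rings of affine curves over finite fields), `4 ≤ n`, `0 < r ≤ n`, and `v`, `p 0`, `p 1`,
`p 2` different prime ideals, the residue field of `p 2` with at least `n` elements. There is a residue
class of monic polynomials of degree `n` over `R` modulo `p 0 ⊓ p 1 ⊓ p 2 ⊓ v ^ 2` such that ALL
polynomials `f` in the class are separable with the properties `BigGal` and `EisensteinAt` for `v`
and `r`.

So there are explicit residue classes of polynomials `f` WITHOUT ANY EXCEPTIONAL SET for which the conclusion is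
true for ALL motives `Z` over `K` (of any rank and weights) such that the inertia group at ONE place `v`
acts on the lattice modulo two by a group of order not divisible by `r`: for instance, with `r = 3`, all
`Z` with semistable reduction at `v`, `v` not over 2 (the inertia group acts by a 2-group). Nothing is
assumed on `Z` at the other places, on the rank, on semisimplicity or on Frobenius elements.

The meaning for the question (over finitely generated fields of characteristic zero, `ℓ = 2`). All Tate
classes in all tensor constructions of the motive `h (A) ⊕ Z` come from polarization classes of the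
`J i` and Tate classes in tensor constructions of `Z`. The polarization classes are algebraic; so if
all Tate classes in tensor constructions of `Z` are combinations of Hodge classes (motivated cycles) then
the same is true for `h (A) ⊕ Z`: the motivic Mumford-Tate conjecture for `Z` implies the conjecture for
`h (A) ⊕ Z`, where `Z` is an arbitrary allowed motive, in general not of abelian type. (This translation
is not formalized. For abelian varieties `Z` the implication is also a theorem of Commelin.)

What is new. In the other theorems of this kind (`MP_0d42ed_ag.AllButFewOverAnyField`,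
`MP_0fca13_ag.AlmostAllHyperelliptic`, starting results) there is an exceptional set of polynomials
which depends on `Z`, or density one statements; `MP_09799c_ag.ExplicitCongruences` treats one curve over
a number field, with `r = 3`. Proof: by the Newton polygon, the ramification indices of the fields which
contain the roots of `f i` are divisible by `r i`, so a root of `f i` is outside of `M`. The Galois group over `M` acts on the roots as a
nontrivial normal subgroup of a group which contains all even permutations, so it contains all even
permutations; some element which is trivial modulo two and fixes the roots of the other `f j` moves a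
root of `f i`, and the theorem of the starting library (`N171`, `N197.Htj`) applies to all
generated representations by `U442.Htj`.
-/

set_option autoImplicit false

namespace Pool.Agent.Results.MP_de8692_ag.EisensteinPlaces

open Polynomial IsDedekindDomain
open Pool.Agent.N171 (HypP JacP JPi pullP Vt vRep cycQ IsWeil)
open Pool.Agent.N197.Htj (Splits)
open Pool.Agent.U442.Htj (Generated)
open Pool.Agent.U442.Sel (EisensteinAt)
open scoped Classical

/-- The representation `τ` on `W` has the matrices `t s`, over the 2-adic integers, in some basis. -/
def HasMatrices {G W : Type} [Group G] [AddCommGroup W] [Module ℚ_[2] W] {d : ℕ}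
    (τ : Representation ℚ_[2] G W) (t : G →* Matrix (Fin d) (Fin d) ℤ_[2]) : Prop :=
  ∃ b : Module.Basis (Fin d) ℚ_[2] W, ∀ s, LinearMap.toMatrix b b (τ s) =
    (t s).map (algebraMap ℤ_[2] ℚ_[2])

/-- The matrix of `s` is congruent to one modulo two. -/
def TrivialModTwo {G : Type} [Group G] {d : ℕ} (t : G →* Matrix (Fin d) (Fin d) ℤ_[2]) (s : G) :
    Prop :=
  (t s).map (PadicInt.toZMod (p := 2)) = 1

/-- The automorphisms of `F` over `K` induce all the even permutations of the roots of `f`. -/
def BigGal {K : Type} [Field K] (f : K[X]) (F : Type) [Field F] [Algebra K F] : Prop :=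
  ∀ π : Equiv.Perm (f.rootSet F), Equiv.Perm.sign π = 1 →
    ∃ s : F ≃ₐ[K] F, ∀ x : f.rootSet F, s (x : F) = (π x : F)

/-- A normal extension `M` of `K` contains `L` and the roots of the `f j`, `j ≠ i`, the matrices of the
automorphisms over `M` are trivial modulo two, and a valuation of `M` extends `v` with a ramification
index which is not divisible by `r`. -/
def AllowedAt {K L F : Type} [Field K] [Field L] [Field F] [Algebra L F] [Algebra K F]
    (v : Valuation K (WithZero (Multiplicative ℤ))) (r : ℕ) {ι : Type} (f : ι → K[X]) (i : ι)
    {d : ℕ} (t : (F ≃ₐ[L] F) →* Matrix (Fin d) (Fin d) ℤ_[2]) : Prop :=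
  ∃ (M : IntermediateField K F) (w : Valuation M (WithZero (Multiplicative ℤ))) (e : ℕ),
    Normal K M ∧ (∀ x : L, algebraMap L F x ∈ M) ∧
    (∀ j, j ≠ i → ∀ x ∈ (f j).rootSet F, x ∈ M) ∧
    (∀ s : F ≃ₐ[L] F, (∀ x ∈ M, s x = x) → TrivialModTwo t s) ∧
    (∀ x : K, w (algebraMap K M x) = v x ^ e) ∧ ¬ r ∣ e

/-- Over `L`, the polynomials `f i` define hyperelliptic Jacobians, and the Tate classes on all the
powers of their product, with values in all representations generated by `τ`, are linear combinations of
products of divisor classes and Tate classes of the representation. -/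
def AllSplit {K : Type} [Field K] (L F : Type) [Field L] [Field F] [Algebra K L] [Algebra L F]
    {ι : Type} (f : ι → K[X]) {W : Type} [AddCommGroup W] [Module ℚ_[2] W]
    (τ : Representation ℚ_[2] (F ≃ₐ[L] F) W) : Prop :=
  ∃ (_ : ∀ i, HypP ((f i).map (algebraMap K L)))
    (ω : ∀ i, Vt (JacP ((f i).map (algebraMap K L)) F) →ₗ[ℚ_[2]]
      Vt (JacP ((f i).map (algebraMap K L)) F) →ₗ[ℚ_[2]] ℚ_[2]),
    (∀ i, IsWeil (vRep (JacP ((f i).map (algebraMap K L)) F) (F ≃ₐ[L] F)) (cycQ L F) (ω i)) ∧
    ∀ (N : Type) [AddCommGroup N] [Module ℚ_[2] N] (ν : Representation ℚ_[2] (F ≃ₐ[L] F) N),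
      Generated τ N ν →
      Splits (vRep (JPi (fun i => (f i).map (algebraMap K L)) F) (F ≃ₐ[L] F))
        (cycQ L F) (fun i => pullP (fun i => (f i).map (algebraMap K L)) F i (ω i)) ν

/-- **Explicit products of hyperelliptic Jacobians and all motives with restricted ramification at
some places, over arbitrary fields of characteristic different from two.** -/
theorem result :
    (∀ (K L F : Type) [Field K] [Field L] [Field F] [Algebra K L] [Algebra L F] [Algebra K F]
      [IsScalarTower K L F] [IsAlgClosure K F] [IsAlgClosure L F], (2 : K) ≠ 0 →
      ∀ (ι : Type) [Finite ι] [Nonempty ι] (f : ι → K[X])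
        (v : ι → Valuation K (WithZero (Multiplicative ℤ))) (r : ι → ℕ),
        (∀ i, (f i).Monic ∧ (f i).Separable ∧ Odd (f i).natDegree ∧ 7 ≤ (f i).natDegree ∧
          BigGal (f i) F ∧ 0 < r i ∧ EisensteinAt (v i) (r i) (f i)) →
        ∀ (W : Type) [AddCommGroup W] [Module ℚ_[2] W] (τ : Representation ℚ_[2] (F ≃ₐ[L] F) W)
          (d : ℕ) (t : (F ≃ₐ[L] F) →* Matrix (Fin d) (Fin d) ℤ_[2]), HasMatrices τ t →
          (∀ i, AllowedAt (v i) (r i) f i t) → AllSplit L F f τ) ∧
    ∀ (R K F : Type) [CommRing R] [IsDedekindDomain R] [Field K] [Algebra R K]
      [IsFractionRing R K] [Field F] [Algebra K F] [IsAlgClosure K F],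
      (∀ p : HeightOneSpectrum R, Finite (R ⧸ p.asIdeal)) →
      ∀ (v : HeightOneSpectrum R) (p : Fin 3 → HeightOneSpectrum R), Function.Injective p →
        (∀ i, v ≠ p i) → ∀ n r : ℕ, 4 ≤ n → 0 < r → r ≤ n →
        n ≤ Nat.card (R ⧸ (p 2).asIdeal) →
        ∃ f₀ : R[X], f₀.Monic ∧ f₀.natDegree = n ∧
          ∀ f : R[X], f.Monic → f.natDegree = n →
            (∀ j, (f - f₀).coeff j ∈
              (p 0).asIdeal ⊓ (p 1).asIdeal ⊓ (p 2).asIdeal ⊓ v.asIdeal ^ 2) →
            (f.map (algebraMap R K)).Separable ∧ BigGal (f.map (algebraMap R K)) F ∧
              EisensteinAt (v.valuation K) r (f.map (algebraMap R K)) := by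
  refine ⟨fun K L F _ _ _ _ _ _ _ _ _ h2 ι _ _ f v r hf W _ _ τ d t hτ hA => ?_,
    fun R K F _ _ _ _ _ _ _ _ hfin v p hp hv n r hn hr hrn hc => ?_⟩
  · have : IsAlgClosed F := IsAlgClosure.isAlgClosed K
    refine Pool.Agent.U442.Sel.allSplit_of_fields f (fun i =>
      { monic := (hf i).1
        sep := (hf i).2.1
        odd := (hf i).2.2.1
        two := h2 }) (fun i => (hf i).2.2.2.1) (fun i => (hf i).2.2.2.2.1) hτ fun i => ?_
    obtain ⟨M, w, e, hM, hL, hj, ht, hw, he⟩ := hA i
    refine ⟨M, hM, hL, ht, hj, ?_⟩
    by_contra hcon
    push Not at hcon
    exact Pool.Agent.U442.Sel.eisen (hf i).2.2.2.2.2.1 hw he (hf i).2.2.2.2.2.2 (hf i).1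
      (IntermediateField.splits_of_splits (IsAlgClosed.splits _) hcon)
  · have : IsAlgClosed F := IsAlgClosure.isAlgClosed K
    have : Normal K F := IsAlgClosure.normal K F
    obtain ⟨f₀, h0, h1, h⟩ := Pool.Agent.U442.Sel.exists_classE hfin K v p hp hv hn hr hrn hc
    refine ⟨f₀, h0, h1, fun f hm hd hI => ?_⟩
    obtain ⟨hs, hg, hrad⟩ := h f hm hd hI
    refine ⟨hs, fun π _ => ?_, hrad⟩
    obtain ⟨s, hs'⟩ := Pool.Agent.U442.Sel.actF_surjective (F := F) hs (IsAlgClosed.splits _) hg π
    refine ⟨s, fun x => ?_⟩
    have h3 := congrArg (fun ρ : Equiv.Perm ((f.map (algebraMap R K)).rootSet F) =>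
      ((ρ x : (f.map (algebraMap R K)).rootSet F) : F)) hs'
    exact h3

end Pool.Agent.Results.MP_de8692_ag.EisensteinPlaces
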