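import Mathlib
import Pool.Agent.U980.AD.Main

/-!
# The motivic Mumford-Tate conjecture is decided by the adjoint maps and the centre

For abelian varieties: by the Tate classes in codimension two.

Let `A_i` be finitely many abelian varieties over a finitely generated field `k` of characteristic zero
(embedded in `ℂ`), with absolute Galois group `Γ`, and let `ρ i` be the representation of `Γ` on
`V i = V_ℓ (A_i) = ℚ_ℓ ^ (n i)`. Let `𝔤` be the Lie algebra of the Mumford-Tate group of the product of
the `A_i`, with coefficients extended to `ℚ_ℓ`, acting on the sum of the `V i`. It is reductive, and it is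
determined by the tensors which it kills; these are Tate tensors, since Hodge classes on
abelian varieties are absolute Hodge classes (Deligne); see `IsMotivic`. (So `𝔤` is the Lie algebra of the
motivic Galois group; part one of the theorem is about arbitrary motives with such a Lie algebra.)

By the Weil pairings of polarizations `ω i`, the group `Γ` acts by similitudes whose multiplier is the
cyclotomic character `χ` (`Polarized`), and so does `𝔤` (`Similitudes`).

The cohomology `H ^ (2 m) (A_{s 0} × ... × A_{s (q - 1)}, ℚ_ℓ) (m)` is the space of alternating forms of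
degree `2 m` on `V_{s 0} × ... × V_{s (q - 1)}` (`Coh`). A class is a *Tate class* (`IsTate`) if `f ∘ g`
is `χ(g) ^ m • f` for all `g` in a subgroup of finite index (this is the condition that `g` fixes
`f`, with the twist). It is a *Hodge class* (`IsHodge`), meaning a combination of Hodge classes with
coefficients in `ℚ_ℓ`, if it is killed by `𝔤`, where `X` in `𝔤` with multiplier `ν` acts on the twist
by `m ν`.

**Theorem.** (First part.) The Mumford-Tate conjecture (`AllTate`: the representation is
semisimple for all subgroups of finite index, and the tensors fixed by such a subgroup are the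
tensors killed by `𝔤`) holds if and only if

* the representation is semisimple (`Semisimple`),
* the linear maps `End (V i) → End (V j)` which commute with the conjugations by a subgroup of
  finite index commute with `𝔤` (`AdjointMaps`), and
* the centre of `𝔤` kills the Tate tensors (`CentreTate`).

If the centre consists of the multiples of the weight operator, then the third condition follows from
the existence of one element (like a Frobenius element) which acts purely with these weights.

(Second part.) Let the `A_i` be abelian varieties with `Semisimple` (Faltings), and suppose that the centre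
kills all Tate tensors (true for abelian varieties: Vasiu, Ullmo-Yafaev) or that it consists of scalars
and some element acts purely of a nonzero weight. Then the following are equivalent.

* The Mumford-Tate conjecture holds for the product of the `A_i`.
* All Tate classes **of degree four (codimension two) on the products `A_i ^ 2 × A_j ^ 2`**, for all
  `i` and `j`, are Hodge classes.
* All Tate classes in all degrees on all products of powers of the `A_i` are Hodge classes.

Let moreover `Alg` be any family of classes which are Hodge classes (for instance the algebraic classes, by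
which we mean combinations with coefficients in `ℚ_ℓ`). Then the *Tate conjecture for all products of
powers of the `A_i`, in all codimensions*, is equivalent to the *Hodge conjecture* for these
varieties, together with the Tate conjecture *in codimension two for the varieties `A_i ^ 2 × A_j ^ 2`*.

The numbers do not depend on the dimensions or on the degrees: for one abelian variety `A` of arbitrary
dimension, all Tate classes on all powers of `A` are algebraic if and only if all Hodge classes are and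
the Tate classes in `H ^ 4 (A ^ 4, ℚ_ℓ (2))` are algebraic.

## Proof

Let `L` be the Lie algebra of all endomorphisms killing all Tate tensors. It is contained in `𝔤`. The
orthogonal projection of the endomorphisms to `L` is composed of maps `End (V i) → End (V j)` which
commute with `Γ`. So these commute with `𝔤`, hence `L` is an ideal of `𝔤`, and `𝔤` is the
sum of `L` and of elements commuting with `L`; these are central, by the condition on the maps again. So
`𝔤` is the sum of `L` and of its centre (`split_centre`, adapted from `R913/Adj` in the starting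
library). This shows the first part. A map `T : End (V i) → End (V j)` gives an alternating form of
degree four on `V i ^ 2 × V j ^ 2`, the antisymmetrization of `ω_j (T (ω_i (y, -) x) z, w)`; it is a
Tate class if `T` commutes with a subgroup of finite index, and the values of `X` in `𝔤` on it show that
`T` commutes with `X` if it is a Hodge class (`commutes_of_codim`). Conversely an alternating form
of degree `2 m` is recovered from tensors with `m` arguments in the sum `V` of the `V i` and `m`
arguments in its dual space, identified by the polarizations (`tate_toTensor`, `kills_toTensor`).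
-/

set_option autoImplicit false

open Module

noncomputable section

namespace Pool.Agent.Results.MP_de8692_ag.FourthPowerDecides

open Pool.Agent.Y114.TF Pool.Agent.Y114.RM Pool.Agent.H204R3.GP Pool.Agent.R913.Adj

section one

variable {k W : Type} [Field k] [AddCommGroup W] [Module k W] {Γ : Type} [Group Γ]
  (ρ : Representation k Γ W) (𝔤 : Submodule k (End k W))

/-- The Tate tensors (in any number of arguments in the space and its dual space) are the tensors killed
by `𝔤`. -/
def TateIsKilled : Prop :=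
  ∀ (m : ℕ) (φ : Tensor k W m), TateTensor ρ φ ↔ ∀ X ∈ 𝔤, KillsTensor X φ

/-- `X` and `Y` commute. -/
def Comm (X Y : End k W) : Prop := ∀ x, X (Y x) = Y (X x)

/-- `Z` is in the centre of `𝔤`. -/
def Central (Z : End k W) : Prop := Z ∈ 𝔤 ∧ ∀ U ∈ 𝔤, Comm Z U

/-- The centre of `𝔤` kills all Tate tensors. -/
def CentreKills : Prop :=
  ∀ Z, Central 𝔤 Z → ∀ (m : ℕ) (φ : Tensor k W m), TateTensor ρ φ → KillsTensor Z φ

/-- The centre of `𝔤` consists of scalars. -/
def OnlyScalars : Prop := ∀ Z, Central 𝔤 Z → ∃ c : k, ∀ x, Z x = c • x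

end one

section many

variable {k : Type} [Field k] {ι : Type} {V : ι → Type} [∀ i, AddCommGroup (V i)]
  [∀ i, Module k (V i)] {Γ : Type} [Group Γ]

/-- The space of alternating forms of degree `2 m` on the product of the spaces `V_{s 0}, V_{s 1}, ...` -/
abbrev Alt (k : Type) [Field k] {ι : Type} (V : ι → Type) [∀ i, AddCommGroup (V i)]
    [∀ i, Module k (V i)] {q : ℕ} (s : Fin q → ι) (m : ℕ) : Type :=
  (∀ a, V (s a)) [⋀^Fin (2 * m)]→ₗ[k] k

/-- A bilinear form is nondegenerate. -/
def NonDegForm {U : Type} [AddCommGroup U] [Module k U] (ω : U →ₗ[k] U →ₗ[k] k) : Prop :=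
  ∀ x, (∀ y, ω x y = 0) → x = 0

/-- `g` is a similitude with multiplier `c`. -/
def IsSim {U : Type} [AddCommGroup U] [Module k U] (ω : U →ₗ[k] U →ₗ[k] k) (g : End k U) (c : k) :
    Prop := ∀ x y, ω (g x) (g y) = c * ω x y

/-- The forms `ω i` are nondegenerate, and `Γ` acts by similitudes with multiplier `χ`. -/
def Polarized (ρ : ∀ i, Representation k Γ (V i)) (χ : Γ →* k) (ω : ∀ i, V i →ₗ[k] V i →ₗ[k] k) :
    Prop := ∀ i, NonDegForm (ω i) ∧ ∀ g, IsSim (ω i) (ρ i g) (χ g)

/-- A class on the product of the `A_{s a}` is a Tate class: `g ^ * f = χ(g) ^ m f` for all `g` in a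
subgroup of finite index of `Γ`. -/
def IsTate (ρ : ∀ i, Representation k Γ (V i)) (χ : Γ →* k) {q m : ℕ} {s : Fin q → ι}
    (f : Alt k V s m) : Prop :=
  ∃ Δ : Subgroup Γ, Δ.FiniteIndex ∧ ∀ g ∈ Δ, ∀ v,
    f (fun l a => ρ (s a) g (v l a)) = χ g ^ m * f v

variable [DecidableEq ι]

/-- The component of `X` on the `i`-th summand. -/
def comp (X : End k (∀ i, V i)) (i : ι) (x : V i) : V i := X (Pi.single i x) i

/-- `X` acts on the polarizations with the multiplier `ν`. -/
def Multiplier (ω : ∀ i, V i →ₗ[k] V i →ₗ[k] k) (X : End k (∀ i, V i)) (ν : k) : Prop :=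
  ∀ i x y, ω i (comp X i x) y + ω i x (comp X i y) = ν * ω i x y

/-- A class on the product of the `A_{s a}` is a Hodge class (with coefficients in `ℚ_ℓ`): the
derivation of the form by `X` in `𝔤` is `m ν f`, where `ν` is the multiplier of `X`. -/
def IsHodge (𝔤 : Submodule k (End k (∀ i, V i))) (ω : ∀ i, V i →ₗ[k] V i →ₗ[k] k) {q m : ℕ}
    {s : Fin q → ι} (f : Alt k V s m) : Prop :=
  ∀ X ∈ 𝔤, ∀ ν, Multiplier ω X ν → ∀ v,
    ∑ l, f (Function.update v l fun a => comp X (s a) (v l a)) = m * ν * f v

end many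

section defs

variable (Γ : Type) [Group Γ] {ι : Type} (n : ι → ℕ) (ℓ : ℕ) [Fact ℓ.Prime]

/-- Representations of `Γ` on the spaces `ℚ_ℓ ^ (n i)`. -/
abbrev Reps : Type := ∀ i, Representation ℚ_[ℓ] Γ (Fin (n i) → ℚ_[ℓ])

/-- Spaces of endomorphisms of the direct sum of the spaces `ℚ_ℓ ^ (n i)`. -/
abbrev EndSpace : Type := Submodule ℚ_[ℓ] (End ℚ_[ℓ] (∀ i, Fin (n i) → ℚ_[ℓ]))

/-- Bilinear forms on the spaces `ℚ_ℓ ^ (n i)`. -/
abbrev Forms : Type :=
  ∀ i, (Fin (n i) → ℚ_[ℓ]) →ₗ[ℚ_[ℓ]] (Fin (n i) → ℚ_[ℓ]) →ₗ[ℚ_[ℓ]] ℚ_[ℓ]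

/-- The cohomology in degree `2 m` of the product of the abelian varieties `A_{s 0}, ..., A_{s (q-1)}`
(with the Tate twist by `m`, see `IsTate` and `IsHodge`): alternating forms of degree `2 m` on the
product of their Tate modules. -/
abbrev Coh {q : ℕ} (s : Fin q → ι) (m : ℕ) : Type :=
  Alt ℚ_[ℓ] (fun i => Fin (n i) → ℚ_[ℓ]) s m

variable {Γ n ℓ} (ρ : Reps Γ n ℓ) (𝔤 : EndSpace n ℓ)

/-- The representations are continuous. -/
def Conts [TopologicalSpace Γ] : Prop := ∀ i, Continuous fun g => LinearMap.toMatrix' (ρ i g)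

variable [DecidableEq ι]

/-- The elements of `𝔤` have multipliers. -/
def Similitudes (ω : Forms n ℓ) : Prop := ∀ X ∈ 𝔤, ∃ ν, Multiplier ω X ν

variable [Fintype ι]

/-- `𝔤` has the properties of the Lie algebra of the motivic Galois group (see `IsMotivic`). -/
def Motivic : Prop := IsMotivic ρ 𝔤

/-- The direct sum is semisimple as a representation of every subgroup of finite index. -/
def Semisimple : Prop := FiniteIndexSemisimple (sumRep ρ)

/-- The conjecture (of Mumford-Tate type): the representation is semisimple under all subgroups of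
finite index, and the Tate tensors are the tensors killed by `𝔤`. -/
def AllTate : Prop := FiniteIndexSemisimple (sumRep ρ) ∧ TateIsKilled (sumRep ρ) 𝔤

/-- The centre of `𝔤` kills all Tate tensors. -/
def CentreTate : Prop := CentreKills (sumRep ρ) 𝔤

/-- The centre of `𝔤` consists of multiples of the operator acting by `w i` on the `i`-th summand. -/
def WeightCentre (w : ι → ℤ) : Prop :=
  ∀ Z, Central 𝔤 Z → ∃ c : ℚ_[ℓ], ∀ x i, Z x i = (c * w i) • x i

/-- The centre of `𝔤` consists of scalars, and some element of `Γ` acts purely of nonzero weight. -/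
def ScalarCentre : Prop :=
  OnlyScalars 𝔤 ∧ ∃ w : ℤ, w ≠ 0 ∧ ∃ γ : Γ, ActsPurely ρ (fun _ => w) γ

end defs

variable {ι : Type} [Fintype ι] [DecidableEq ι] {n : ι → ℕ} {ℓ : ℕ} [Fact ℓ.Prime]
  {Γ : Type} [Group Γ] [TopologicalSpace Γ] [IsTopologicalGroup Γ] [CompactSpace Γ]

/-- **Mumford-Tate in terms of the adjoint maps and the centre; the Tate conjecture for all products of
powers of abelian varieties is equivalent to the Hodge conjecture together with the Tate conjecture in
codimension two for the products `A_i ^ 2 × A_j ^ 2`.** -/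
theorem result (ρ : Reps Γ n ℓ) (hρ : Conts ρ) (𝔤 : EndSpace n ℓ) (h𝔤 : Motivic ρ 𝔤) :
    (AllTate ρ 𝔤 ↔ Semisimple ρ ∧ AdjointMaps ρ 𝔤 ∧ CentreTate ρ 𝔤) ∧
    (∀ w : ι → ℤ, WeightCentre 𝔤 w → (∃ γ : Γ, ActsPurely ρ w γ) →
      (AllTate ρ 𝔤 ↔ Semisimple ρ ∧ AdjointMaps ρ 𝔤)) ∧
    ∀ (χ : Γ →* ℚ_[ℓ]) (ω : Forms n ℓ), Polarized ρ χ ω → Similitudes 𝔤 ω → Semisimple ρ →
      (CentreTate ρ 𝔤 ∨ ScalarCentre ρ 𝔤) →
      (AllTate ρ 𝔤 ↔ ∀ (i j : ι) (f : Coh n ℓ ![i, i, j, j] 2), IsTate ρ χ f → IsHodge 𝔤 ω f) ∧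
      (AllTate ρ 𝔤 ↔
        ∀ (q m : ℕ) (s : Fin q → ι) (f : Coh n ℓ s m), IsTate ρ χ f → IsHodge 𝔤 ω f) ∧
      (∀ (q m : ℕ) (s : Fin q → ι) (f : Coh n ℓ s m), IsHodge 𝔤 ω f → IsTate ρ χ f) ∧
      ∀ Alg : ∀ (q m : ℕ) (s : Fin q → ι), Set (Coh n ℓ s m),
        (∀ q m s, ∀ f ∈ Alg q m s, IsHodge 𝔤 ω f) →
        ((∀ (q m : ℕ) (s : Fin q → ι) (f : Coh n ℓ s m), IsTate ρ χ f → f ∈ Alg q m s) ↔
          (∀ (q m : ℕ) (s : Fin q → ι) (f : Coh n ℓ s m), IsHodge 𝔤 ω f → f ∈ Alg q m s) ∧
          ∀ (i j : ι) (f : Coh n ℓ ![i, i, j, j] 2), IsTate ρ χ f → f ∈ Alg 4 2 ![i, i, j, j]) := by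
  have hall : AllTate ρ 𝔤 ↔ Semisimple ρ ∧ U980.AD.AllKilled ρ 𝔤 :=
    ⟨fun h => ⟨h.1, fun m φ hφ => (h.2 m φ).1 hφ⟩,
      fun h => ⟨h.1, fun m φ => ⟨fun hφ => h.2 m φ hφ, fun hφ => h𝔤.tate m φ hφ⟩⟩⟩
  have hc1 : ∀ Z ∈ 𝔤, (∀ U ∈ 𝔤, Z * U = U * Z) → Central 𝔤 Z := fun Z hZ hc =>
    ⟨hZ, fun U hU x => LinearMap.congr_fun (hc U hU) x⟩
  have hc2 : ∀ Z, Central 𝔤 Z → ∀ U ∈ 𝔤, Z * U = U * Z := fun Z hZ U hU =>
    LinearMap.ext fun x => hZ.2 U hU x
  have hcen : CentreTate ρ 𝔤 ↔ U980.AD.CentreKills ρ 𝔤 :=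
    ⟨fun h Z hZ hc m φ hφ => h Z (hc1 Z hZ hc) m φ hφ,
      fun h Z hZ m φ hφ => h Z hZ.1 (hc2 Z hZ) m φ hφ⟩
  have h1 : AllTate ρ 𝔤 ↔ Semisimple ρ ∧ AdjointMaps ρ 𝔤 ∧ CentreTate ρ 𝔤 := by
    rw [hall, hcen]
    exact ⟨fun h => ⟨h.1, U980.AD.adjoint_of_all ρ hρ h𝔤 h.2, U980.AD.centre_of_all ρ hρ h𝔤 h.2⟩,
      fun h => ⟨h.1, U980.AD.allKilled_of ρ hρ h𝔤 h.1 h.2.1 h.2.2⟩⟩
  refine ⟨h1, ?_, ?_⟩
  · intro w hw hγ
    rw [h1]
    refine ⟨fun h => ⟨h.1, h.2.1⟩, fun h => ⟨h.1, h.2, hcen.2 ?_⟩⟩
    obtain ⟨γ, hγ⟩ := hγ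
    refine U980.AD.centre_of_weight ρ hρ h𝔤 h.1 hγ fun Z hZ hZc => ?_
    obtain ⟨c, hc⟩ := hw Z (hc1 Z hZ hZc)
    refine ⟨c, LinearMap.ext fun x => funext fun i => ?_⟩
    rw [hc x i, mul_smul]
    rfl
  · intro χ ω hpol hsim hss hcc
    have hp1 : ∀ i x, (∀ y, ω i x y = 0) → x = 0 := fun i => (hpol i).1
    have hp2 : ∀ i g x y, ω i (ρ i g x) (ρ i g y) = χ g * ω i x y := fun i => (hpol i).2
    have hcc' : CentreTate ρ 𝔤 := by
      rcases hcc with h | ⟨h, w, hw, γ, hγ⟩
      · exact h
      · refine hcen.2 (U980.AD.centre_of_scalars ρ hρ h𝔤 hss hw hγ fun Z hZ hZc => ?_)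
        obtain ⟨c, hc⟩ := h Z (hc1 Z hZ hZc)
        exact ⟨c, LinearMap.ext hc⟩
    have hto : AllTate ρ 𝔤 →
        ∀ (q m : ℕ) (s : Fin q → ι) (f : Coh n ℓ s m), IsTate ρ χ f → IsHodge 𝔤 ω f := by
      intro h q m s f hf X hX ν hν v
      have h2 := U980.AD.hodge_of_all ρ hρ h𝔤 hp1 hp2 (hall.1 h).2 f hf X hX ν hν v
      rw [U980.AD.der_apply] at h2
      exact h2
    have hfrom : (∀ (i j : ι) (f : Coh n ℓ ![i, i, j, j] 2), IsTate ρ χ f → IsHodge 𝔤 ω f) →
        AllTate ρ 𝔤 := by
      intro h
      refine h1.2 ⟨hss, U980.AD.adjoint_of_codim ρ hρ h𝔤 hp1 hp2 hsim ?_, hcc'⟩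
      intro i j f hf X hX ν hν v
      rw [U980.AD.der_apply]
      exact h i j f hf X hX ν hν v
    have hht : ∀ (q m : ℕ) (s : Fin q → ι) (f : Coh n ℓ s m), IsHodge 𝔤 ω f → IsTate ρ χ f := by
      intro q m s f hf
      refine U980.AD.tate_of_hodge ρ hρ h𝔤 hp1 hp2 hsim f fun X hX ν hν v => ?_
      rw [U980.AD.der_apply]
      exact hf X hX ν hν v
    refine ⟨⟨fun h i j f => hto h 4 2 _ f, hfrom⟩,
      ⟨hto, fun h => hfrom fun i j f => h 4 2 _ f⟩, hht, fun Alg hAlg => ⟨fun h => ?_, fun h => ?_⟩⟩
    · exact ⟨fun q m s f hf => h q m s f (hht q m s f hf), fun i j f hf => h 4 2 _ f hf⟩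
    · intro q m s f hf
      exact h.1 q m s f (hto (hfrom fun i j f hf => hAlg 4 2 _ f (h.2 i j f hf)) q m s f hf)

end Pool.Agent.Results.MP_de8692_ag.FourthPowerDecides

end
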