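import Mathlib
import Pool.Agent.U175.LP.R14

/-!
# The motivic Mumford-Tate conjecture at `p` from the dimension of a Lie algebra modulo `p`

Let `M` be a motive over a finitely generated field `k` of characteristic zero (André motive, or motive
for absolute Hodge cycles), of rank `n`, and let `p ≥ 5` be a prime number. Choose a Galois stable
lattice `ℤ_p ^ n` in the `p`-adic realization `M_p`; the Galois group `Γ` of `k` acts on it by matrices
`R g`. The finite group `G` of the reductions of the `R g` modulo `p` is the image of the residual
representation.

* `PairForm p n m` is the space of the multilinear forms in `m` pairs (vector, covector) of the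
  `p`-adic realization; it contains all tensors of all the spaces `M_p ^(⊗ a) ⊗ M_p^∨ ^(⊗ b)`, `a + b = m`.
* `Θ` is a set of such tensors which are `Tate` tensors (invariant under a subgroup of finite index).
  Take for `Θ` all motivated cycles (or absolute Hodge cycles) on the tensor spaces of `M` over the
  algebraic closure; they are Tate tensors. Then `annihilator Θ`, the Lie algebra of all operators
  which kill the elements of `Θ`, is the Lie algebra of the motivic Galois group of `M`, with
  coefficients in `ℚ_p` (the identity component is reductive, hence it is the stabilizer of its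
  invariants). For motives for absolute Hodge cycles it is the Lie algebra of the Mumford-Tate group
  `G_σ(M)`, by the theorem of Deligne which is quoted in the problem. (If `M` is an abelian motive, `Θ` may
  be the set of all Hodge tensors.)
* the tangent vectors (`IsTangentVector`) of the image of Galois are the limits of the sequences
  `(R (σ_k) - 1) / p ^ k`; they form the Lie algebra of the `p`-adic monodromy group `G_{p,k}(M)` (the image
  of Galois is a compact `p`-adic Lie group, whose Lie algebra is algebraic by Bogomolov, for instance; for
  this theorem one needs only that it is contained in the Lie algebra of `G_{p,k}(M)`).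
* `residualLieAlgebra R` is the Lie algebra `𝔫` over `ℤ / p` generated by the logarithms of the
  elements `u` of the finite group `G` with `(u - 1) ^ ((p - 1) / 2) = 0` (for `p > 2 n` these are all
  the elements of order `p`, and `𝔫` is the Lie algebra of Nori; for small `p` the elements with
  `(u - 1) ^ 2 = 0`, for instance transvections and long root elements, are always admitted),
  and `commutators 𝔫` is the derived algebra.

**Theorem.** Suppose that one of the following inequalities between dimensions holds:

1. `dim (annihilator Θ) ≤ dim 𝔫`;
2. `dim (annihilator Θ) ≤ dim [𝔫, 𝔫] + 1`, and the determinant of `M_p` is of infinite order (which is the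
   case if the weight of `M` is not zero).

Then the annihilator of `Θ` is the set of the tangent vectors of the Galois image, that is, the motivic
Mumford-Tate conjecture (the motivic Tate conjecture) is true for `M` at the prime number `p`:
`G_{p,k}(M)` and the motivic Galois group have the same identity component. In particular every Tate
tensor over every finite extension of `k`, in all tensor spaces, is killed by the motivic Lie algebra,
that is, it is a combination of motivated cycles.

So for every motive whose motivic Lie algebra is the sum of a semisimple Lie algebra and of the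
homotheties (motives with the groups `GSp`, `GO`, `GSpin`, `G_2 × 𝔾_m`, motives of type `E_6`, `E_7`, `E_8`,
products over totally real fields of such groups, ..., and also when `M` is not pure) the conjecture at `p`
is reduced to the dimension of one Lie algebra of matrices over a finite field, which can be computed
from finitely many elements of one finite Galois group. Nothing is assumed about `p` and `M`: neither
good reduction, nor that the motivic Galois group is unramified at `p`, nor that the lattice
is nice, nor that the residual representation is semisimple or irreducible, nor that `p` is large compared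
with `n`; the dimension alone decides. In contrast the known criteria for large images (Serre for
`SL_2` and `Sp`, Vasiu for hyperspecial groups, Pink, Hall) need the structure of a smooth reductive
group scheme over `ℤ_p` with simply connected derived group, and the whole group of its points modulo `p`.

Proof. (1) Let `g` be a Galois element whose reduction `u` satisfies `(u - 1) ^ k = 0`, `2 k < p`. Then
`R g ^ p = 1 + p Y`, `Y` congruent to `log u` modulo `p`, and the logarithm of `g ^ p` is a tangent vector
which is congruent to `log u` (`nlog_mem0`). The reductions of the integral tangent vectors form a Lie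
algebra, so it contains `𝔫`, and `[𝔫, 𝔫]` consists of reductions of tangent vectors of trace zero
(`derL_le`). (2) Lifts of linearly independent matrices modulo `p` are linearly independent over `ℚ_p`
(`li_lift`). If the determinant of `R g` has infinite order, then the logarithm of a power of `g` is a
tangent vector whose trace is not zero, because the trace is the derivative of the determinant
(`exists_trace`). Hence the Lie algebra of the tangent vectors has dimension at least `dim 𝔫`, and at least
`dim [𝔫, 𝔫] + 1` in the second case. (3) Tangent vectors kill Tate tensors (`kills_of_isTangent`: expand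
the invariance under `σ_k ^ N` to the first order), so they lie in the annihilator of `Θ`, and the
dimensions show that they fill it.
-/

set_option autoImplicit false

namespace Pool.Agent.Results.MP_de8692_ag.ResidualDimension

open Matrix Filter Topology

/-- The multilinear forms in `m` pairs of a vector and a covector of the space `ℚ_p ^ n`. -/
abbrev PairForm (p n m : ℕ) [Fact p.Prime] : Type :=
  MultilinearMap ℚ_[p] (fun _ : Fin m => (Fin n → ℚ_[p]) × (Fin n → ℚ_[p])) ℚ_[p]

variable {p n : ℕ} [Fact p.Prime] {Γ : Type} [Group Γ]

/-- The form `φ` is a Tate tensor: it is invariant under a subgroup of finite index. -/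
def IsTateTensor (ρ : Γ →* Matrix (Fin n) (Fin n) ℚ_[p]) {m : ℕ} (φ : PairForm p n m) : Prop :=
  ∃ U : Subgroup Γ, U.FiniteIndex ∧ ∀ g ∈ U, ∀ v,
    φ (fun l => (ρ g *ᵥ (v l).1, (ρ g⁻¹)ᵀ *ᵥ (v l).2)) = φ v

/-- The form `φ` is killed by `X`, which acts on vectors by `X` and on covectors by the negative of
the transpose. -/
def IsKilledBy {m : ℕ} (φ : PairForm p n m) (X : Matrix (Fin n) (Fin n) ℚ_[p]) : Prop :=
  ∀ v, ∑ l, φ (Function.update v l (X *ᵥ (v l).1, -(Xᵀ *ᵥ (v l).2))) = 0

/-- The Lie algebra of the operators which kill all the forms in `Θ`: the largest space of matrices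
whose elements kill all elements of `Θ`. -/
noncomputable def annihilator (Θ : ∀ m, Set (PairForm p n m)) :
    Submodule ℚ_[p] (Matrix (Fin n) (Fin n) ℚ_[p]) :=
  Submodule.span ℚ_[p] {X | ∀ m, ∀ φ ∈ Θ m, IsKilledBy φ X}

/-- `X` is a tangent vector of the image: a limit of a sequence `(ρ (σ k) - 1) / p ^ k`. -/
def IsTangentVector (ρ : Γ →* Matrix (Fin n) (Fin n) ℚ_[p]) (X : Matrix (Fin n) (Fin n) ℚ_[p]) :
    Prop :=
  ∃ σ : ℕ → Γ, Tendsto (fun k : ℕ => ((p : ℚ_[p]) ^ k)⁻¹ • (ρ (σ k) - 1)) atTop (𝓝 X)

/-- The logarithm of a unipotent matrix modulo `p`: the sum of `(-1) ^ (j + 1) (u - 1) ^ j / j` for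
`1 ≤ j < p`. -/
def unipotentLog (u : Matrix (Fin n) (Fin n) (ZMod p)) : Matrix (Fin n) (Fin n) (ZMod p) :=
  ∑ j ∈ Finset.Ico 1 p, ((-1) ^ (j + 1) * ((j : ℕ) : ZMod p)⁻¹) • (u - 1) ^ j

/-- The Lie algebra modulo `p` of the image modulo `p` of the representation `R`: the smallest subspace
of the space of matrices over `ℤ / p` which is closed under commutators and contains the logarithms
of the elements `u` of the image modulo `p` with `(u - 1) ^ ((p - 1) / 2) = 0`. -/
def residualLieAlgebra (R : Γ →* Matrix (Fin n) (Fin n) ℤ_[p]) :
    Submodule (ZMod p) (Matrix (Fin n) (Fin n) (ZMod p)) :=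
  sInf {L | {X | ∃ g, ((R g).map PadicInt.toZMod - 1) ^ ((p - 1) / 2) = 0 ∧
      X = unipotentLog ((R g).map PadicInt.toZMod)} ⊆ (L : Set (Matrix (Fin n) (Fin n) (ZMod p))) ∧
    ∀ X ∈ L, ∀ Y ∈ L, X * Y - Y * X ∈ L}

/-- The derived algebra: the span of the commutators of elements of `L`. -/
def commutators (L : Submodule (ZMod p) (Matrix (Fin n) (Fin n) (ZMod p))) :
    Submodule (ZMod p) (Matrix (Fin n) (Fin n) (ZMod p)) :=
  Submodule.span (ZMod p) {Z | ∃ X ∈ L, ∃ Y ∈ L, Z = X * Y - Y * X}

/-- **The motivic Mumford-Tate conjecture at `p` from the dimension of the residual Lie algebra.** -/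
theorem result (hp : 5 ≤ p) (ρ : Γ →* Matrix (Fin n) (Fin n) ℚ_[p])
    -- a stable lattice
    (R : Γ →* Matrix (Fin n) (Fin n) ℤ_[p])
    (hR : ∀ g, ρ g = (R g).map (algebraMap ℤ_[p] ℚ_[p]))
    -- a set of Tate tensors (the motivated cycles)
    (Θ : ∀ m, Set (PairForm p n m)) (hΘ : ∀ m, ∀ φ ∈ Θ m, IsTateTensor ρ φ)
    -- the inequality of dimensions
    (hdim : Module.finrank ℚ_[p] (annihilator Θ) ≤ Module.finrank (ZMod p) (residualLieAlgebra R) ∨
      ((∃ g, ∀ m, 0 < m → (R g).det ^ m ≠ 1) ∧ Module.finrank ℚ_[p] (annihilator Θ) ≤
        Module.finrank (ZMod p) (commutators (residualLieAlgebra R)) + 1)) :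
    (∀ X, X ∈ annihilator Θ ↔ IsTangentVector ρ X) ∧
    ∀ (m : ℕ) (φ : PairForm p n m), IsTateTensor ρ φ → ∀ X ∈ annihilator Θ, IsKilledBy φ X := by
  have h1 : ∀ X, IsTangentVector ρ X → X ∈ annihilator Θ := fun X hX =>
    Submodule.subset_span fun m φ hφ =>
      Pool.Agent.U175.LP.kills_of_isTangent hR hX (hΘ m φ hφ)
  have h2 : ∀ X, X ∈ annihilator Θ ↔ IsTangentVector ρ X :=
    Pool.Agent.U175.LP.mem_iff_tangent (by omega) hR h1 (fun X hX => hX) hdim
  exact ⟨h2, fun m φ hφ X hX =>
    Pool.Agent.U175.LP.kills_of_isTangent hR ((h2 X).1 hX) hφ⟩

end Pool.Agent.Results.MP_de8692_ag.ResidualDimension
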