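import Pool.Agent.U190.JT.Rcrit

/-!
# The Mumford-Tate conjecture for sums `M ⊕ A` with ARBITRARY unrelated motives `A`, from an open image
at ONE prime

Let `K` be a number field with a complex embedding and `M_i` (`i` in a finite set `ι`) motives over `K`,
pure of weight `w_i`, with `ℓ`-adic realizations `ρ_i = ρ_{i,ℓ}` and nondegenerate forms
`J_i : M_i ⊗ M_i → ℚ(-w_i)` over `ℚ` (with respect to rational bases of the Betti realizations), which are
alternating (any rank `N_i`) or symmetric, with `N_i ≥ 5` odd or `N_i ≥ 8` even (in the symmetric case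
`M_i` is twisted such that `w_i = 0`). Let `κ_ℓ` be the inverse of the cyclotomic character, that is the
realization of `ℚ(-1)`. By `h_i` we denote the operator on the complexification of the Betti realization
which is the multiplication by `p` on the part of type `(p, q)`, and by `L_i` the Lie algebra of the
isometry group of `J_i`, over `ℚ`. The group `G_K` acts on `L_i ⊗ ℚ_ℓ` by conjugation and `h_i` acts on
`L_i ⊗ ℂ` by commutators; these are the realizations of the direct summand `Λ² M_i(w_i)` (`J_i`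
symmetric) or `Sym² M_i(w_i)` (`J_i` alternating) of `End(M_i)`.

The Mumford-Tate conjecture for a family `M = (M_i)` at `ℓ` in the form for Lie algebras is the equality of

* the Lie algebra of the image of `G_K` in `∏ GL(N_i, ℚ_ℓ) × GL(1, ℚ_ℓ)` (the last component is `κ_ℓ`),
* the extension of scalars to `ℚ_ℓ` of the Lie algebra of the Mumford-Tate group of
  `⊕ M_i ⊕ ℚ(-1)`, which is the smallest Lie algebra over `ℚ` whose complexification contains `(h, 1)`.

Hypotheses on the `M_i`: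

* (Hodge) the smallest rational Lie algebra whose complexification contains the family
  `h_i - w_i / 2` is the product of the `L_i`, that is the Mumford-Tate group of the family is as large as
  possible;
* (Galois, at ONE prime `ℓ₀`) the Lie algebra of the joint image of `G_K` contains the product of the
  `L_i ⊗ ℚ_ℓ₀`. The prime `ℓ₀` is odd in the alternating case, does not divide `N_i - 1` (symmetric,
  `N_i` odd), or does not divide `(N_i - 2) (N_i - 4)` and the valuation of `det J_i` at `ℓ₀` is even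
  (symmetric, `N_i` even).

**Theorem.** For all `ℓ` outside a set of natural density zero, and for EVERY `ℓ` for which all `ρ_{i,ℓ}`
are semisimple with scalar commutants over all open subgroups:

* the Mumford-Tate conjecture at `ℓ` holds for the family `M`;
* for ALL finite families `A = (A_s)` of motives, pure or mixed, of ANY rank (arbitrary continuous
  representations `α_s` of `G_K` over `ℚ_ℓ`, semisimple or not, and arbitrary operators `h_{A,s}`), each of
  which is unrelated to all `M_i` or has an abelian image over a finite extension of `K`: the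
  Mumford-Tate conjecture at `ℓ` holds for `M ⊕ A` if and only if it holds for `A`.

Here `A_s` is unrelated to `M_i` if

* (Galois) `L_i ⊗ ℚ_ℓ`, as a Lie algebra with an action of `G_K`, is not a quotient of a Lie subalgebra of
  the Lie algebra of the image of `α_s`, and
* (Hodge) `L_i`, as a Lie algebra with the operator `h_i` on its complexification, is not a quotient of a
  Lie subalgebra of the Lie algebra of the Mumford-Tate group of `A_s`.

**Criteria.** If there is a relation on the side of Galois representations then for ALL `σ` in `G_K` the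
characteristic polynomial of `σ` on `L_i ⊗ ℚ_ℓ` divides the one on `End(α_s)`; so ONE Frobenius element
`σ` for which this is false excludes it (this is a condition on the Frobenius polynomials of
`M_i` and `A_s` at one prime `v`). If there is a relation on the side of Hodge structures then the
characteristic polynomial of `h_i` on `L_i ⊗ ℂ` divides the one of `h_{A,s}` on `End(A_s)`, that is the
Hodge numbers of the summand `L_i` of `End(M_i)` are at most those of `End(A_s)`; so this is excluded if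
for instance the level of `A_s` (the difference of the largest and the smallest `p`) is smaller than that
of `L_i`. Both relations are impossible if `rk(A_s) ^ 2 < dim L_i`.

So for these `ℓ` the Mumford-Tate conjecture is true for all sums of the `M_i` with motives of CM type and
with all motives unrelated to the `M_i` for which the conjecture is known. If `L_i` were a
subquotient of `End(A_s)` in only one of the realizations, this would contradict the Hodge conjecture or the
Tate conjecture. For abelian varieties the conjecture for products is known (Vasiu, Commelin); here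
the motives `M_i` and `A_s` need not be of abelian type, the `A_s` need not be semisimple, and there is
no hypothesis on the `M_i` at `ℓ`.

## Proof

The theorem `several` of the starting repository (by helper932 and others, not used there) gives the
full joint Lie algebra of the `ρ_{i,ℓ}` for the primes `ℓ` in the theorem. New (`Pool/Agent/U190/JS`,
`U190/MT` and `U190/JT`): the Lie algebra of the joint image of all `ρ_{i,ℓ}`, `α_s` and `κ` is stable under
the conjugation by `G_K`, and the smallest rational Lie algebra whose complexification contains all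
operators is stable under all coordinates of the operators. By the theorem of Goursat for the simple
factors `L_i` (by induction on the number of the `A_s`) both contain `∏ L_i × 0` since otherwise some
`L_i` would be an equivariant quotient of a Lie subalgebra of the Lie algebra of some `A_s` (if `α_s` is
abelian and the conjecture holds for `A`, then the rational Lie algebra of `A_s` is abelian). So both Lie
algebras for `M ⊕ A` consist of all families whose components `X_i` satisfy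
`X_iᵀ J_i + J_i X_i = w_i c J_i` and whose components at `A` and `ℚ(-1)` are in the Lie algebra for `A`.
For the criteria the characteristic polynomial on a quotient of a stable subspace divides the one on
the space.
-/

set_option autoImplicit false

namespace Pool.Agent.Results.MP_de8692_ag.SumsWithUnrelatedMotives

open Matrix Polynomial Filter Topology NumberField IsDedekindDomain

/-- the absolute Galois group of `K`, with its profinite (Krull) topology -/
abbrev AbsoluteGaloisGroup (K : Type) [Field K] : Type := Gal(AlgebraicClosure K/K)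

/-- `σ` is an (arithmetic) Frobenius element at the prime `v` of the number field `K`: for some prime
`Q` of the algebraic closure above `v` it acts on the residue field as `x ↦ x ^ N(v)` -/
def IsFrobenius {K : Type} [Field K] [NumberField K] (v : HeightOneSpectrum (𝓞 K))
    (σ : AbsoluteGaloisGroup K) : Prop :=
  ∃ Q : Ideal (𝓞 (AlgebraicClosure K)), Q.IsMaximal ∧
    Q.comap (algebraMap (𝓞 K) (𝓞 (AlgebraicClosure K))) = v.asIdeal ∧
    ∀ x : 𝓞 (AlgebraicClosure K), σ • x - x ^ Ideal.absNorm v.asIdeal ∈ Q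

/-- the set `A` of prime numbers has natural density zero -/
def HasDensityZero (A : Set ℕ) : Prop :=
  Tendsto (fun n : ℕ => (Nat.card {ℓ : ℕ // ℓ ≤ n ∧ ℓ ∈ A} : ℝ) / (Nat.primeCounting n : ℝ))
    atTop (𝓝 0)

/-- the rational matrix as a matrix over the field `F` -/
noncomputable def matrixOver (F : Type) [Field F] [Algebra ℚ F] {N : ℕ}
    (J : Matrix (Fin N) (Fin N) ℚ) : Matrix (Fin N) (Fin N) F :=
  J.map (algebraMap ℚ F)

/-- the form is nondegenerate and alternating, or symmetric of odd rank at least `5` or even rank at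
least `8` -/
def IsAdmissible {N : ℕ} (J : Matrix (Fin N) (Fin N) ℚ) : Prop :=
  J.det ≠ 0 ∧ ((Jᵀ = -J ∧ 0 < N) ∨ (Jᵀ = J ∧ Odd N ∧ 5 ≤ N) ∨ (Jᵀ = J ∧ Even N ∧ 8 ≤ N))

/-- the prime number `ℓ` is suitable for the form -/
def IsSuitable (ℓ : ℕ) [Fact ℓ.Prime] {N : ℕ} (J : Matrix (Fin N) (Fin N) ℚ) : Prop :=
  (Jᵀ = -J → ℓ ≠ 2) ∧ (Jᵀ = J → Odd N → ¬ ℓ ∣ N - 1) ∧
    (Jᵀ = J → Even N → ¬ ℓ ∣ (N - 2) * (N - 4) ∧ Even (Padic.valuation (matrixOver ℚ_[ℓ] J).det))

/-- the Lie algebra of the form: the matrices `X` with `Xᵀ J + J X = 0` -/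
def lieAlgebra {F : Type} [Field F] {N : ℕ} (J : Matrix (Fin N) (Fin N) F) :
    Submodule F (Matrix (Fin N) (Fin N) F) where
  carrier := {X | Xᵀ * J + J * X = 0}
  add_mem' := fun {X Y} hX hY => (Pool.Agent.R932.PO.spSub J).add_mem (x := X) (y := Y) hX hY
  zero_mem' := (Pool.Agent.R932.PO.spSub J).zero_mem
  smul_mem' := fun c {X} hX => (Pool.Agent.R932.PO.spSub J).smul_mem c (x := X) hX

section systems

variable {K : Type} [Field K] [NumberField K]

/-- `κ` is continuous with the value `N(v)` at the geometric Frobenius elements at `v ∉ S`, `v ∤ ℓ` -/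
def IsInverseCyclotomic (S : Set (HeightOneSpectrum (𝓞 K))) (ℓ : ℕ) [Fact ℓ.Prime]
    (κ : AbsoluteGaloisGroup K →* ℚ_[ℓ]) : Prop :=
  Continuous κ ∧ ∀ v ∉ S, (ℓ : 𝓞 K) ∉ v.asIdeal → ∀ σ : AbsoluteGaloisGroup K, IsFrobenius v σ →
    κ σ⁻¹ = (Ideal.absNorm v.asIdeal : ℚ_[ℓ])

/-- `ρ` is continuous, multiplies the form `J` by `κ ^ w`, and for `v ∉ S`, `v ∤ ℓ` the characteristic
polynomial of the geometric Frobenius elements at `v` is `P v` -/
def IsRealization (S : Set (HeightOneSpectrum (𝓞 K))) (ℓ : ℕ) [Fact ℓ.Prime]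
    (κ : AbsoluteGaloisGroup K →* ℚ_[ℓ]) {N : ℕ} (J : Matrix (Fin N) (Fin N) ℚ) (w : ℕ)
    (P : HeightOneSpectrum (𝓞 K) → ℚ[X])
    (ρ : AbsoluteGaloisGroup K →* Matrix (Fin N) (Fin N) ℚ_[ℓ]) : Prop :=
  Continuous ρ ∧ (∀ g, (ρ g)ᵀ * matrixOver ℚ_[ℓ] J * ρ g = κ g ^ w • matrixOver ℚ_[ℓ] J) ∧
    ∀ v ∉ S, (ℓ : 𝓞 K) ∉ v.asIdeal → ∀ σ : AbsoluteGaloisGroup K, IsFrobenius v σ →
      (ρ σ⁻¹).charpoly = (P v).map (algebraMap ℚ ℚ_[ℓ])

end systems

section representations

variable {G : Type} [Group G] [TopologicalSpace G]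

/-- each family of elements `X i` of the Lie algebras of the forms `J i` is in the Lie algebra of the joint
image: for some elements `σ n` of `G` the matrices `(ρ i (σ n) - 1) / ℓ ^ n` converge to `X i` for all `i` -/
def HasFullLieAlgebra {ι : Type} {N : ι → ℕ} (ℓ : ℕ) [Fact ℓ.Prime]
    (J : ∀ i, Matrix (Fin (N i)) (Fin (N i)) ℚ)
    (ρ : ∀ i, G →* Matrix (Fin (N i)) (Fin (N i)) ℚ_[ℓ]) : Prop :=
  ∀ X : ∀ i, Matrix (Fin (N i)) (Fin (N i)) ℚ_[ℓ],
    (∀ i, X i ∈ lieAlgebra (matrixOver ℚ_[ℓ] (J i))) →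
    ∃ σ : ℕ → G, ∀ i, Tendsto (fun n : ℕ => ((ℓ : ℚ_[ℓ]) ^ n)⁻¹ • (ρ i (σ n) - 1)) atTop (𝓝 (X i))

/-- every stable subspace has a stable complement -/
def IsSemisimple {F : Type} [Field F] {N : ℕ} (ρ : G →* Matrix (Fin N) (Fin N) F) : Prop :=
  ∀ W : Submodule F (Fin N → F), (∀ σ, ∀ w ∈ W, ρ σ *ᵥ w ∈ W) →
    ∃ W' : Submodule F (Fin N → F), IsCompl W W' ∧ ∀ σ, ∀ w ∈ W', ρ σ *ᵥ w ∈ W'

/-- every matrix which commutes with an open subgroup is scalar -/
def HasScalarCommutants {F : Type} [Field F] {N : ℕ} (ρ : G →* Matrix (Fin N) (Fin N) F) : Prop :=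
  ∀ (A : Matrix (Fin N) (Fin N) F) (U : Subgroup G), IsOpen (U : Set G) →
    (∀ σ ∈ U, A * ρ σ = ρ σ * A) → ∃ c : F, A = c • (1 : Matrix (Fin N) (Fin N) F)

/-- the restriction to an open subgroup is commutative -/
def IsPotentiallyAbelian {F : Type} [Field F] {n : ℕ} (α : G →* Matrix (Fin n) (Fin n) F) : Prop :=
  ∃ U : Subgroup G, IsOpen (U : Set G) ∧ ∀ σ ∈ U, ∀ τ ∈ U, α σ * α τ = α τ * α σ

/-- `X` is in the Lie algebra of the image of `α`: the matrices `(α (σ n) - 1) / ℓ ^ n` converge to `X`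
for some elements `σ n` of the group -/
def IsTangent (ℓ : ℕ) [Fact ℓ.Prime] {n : ℕ} (α : G →* Matrix (Fin n) (Fin n) ℚ_[ℓ])
    (X : Matrix (Fin n) (Fin n) ℚ_[ℓ]) : Prop :=
  ∃ σ : ℕ → G, Tendsto (fun k : ℕ => ((ℓ : ℚ_[ℓ]) ^ k)⁻¹ • (α (σ k) - 1)) atTop (𝓝 X)

/-- There are a Lie subalgebra `𝔞` of the Lie algebra of the image of `α`, stable under the conjugation
by `α`, and a surjective homomorphism `Θ` of Lie algebras from `𝔞` to the Lie algebra of the form `J`
which is compatible with the conjugation by `α` and by `ρ`. -/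
def IsRelated (ℓ : ℕ) [Fact ℓ.Prime] {N n : ℕ} (J : Matrix (Fin N) (Fin N) ℚ)
    (ρ : G →* Matrix (Fin N) (Fin N) ℚ_[ℓ]) (α : G →* Matrix (Fin n) (Fin n) ℚ_[ℓ]) : Prop :=
  ∃ (𝔞 : Submodule ℚ_[ℓ] (Matrix (Fin n) (Fin n) ℚ_[ℓ]))
    (Θ : 𝔞 →ₗ[ℚ_[ℓ]] lieAlgebra (matrixOver ℚ_[ℓ] J)),
    Function.Surjective Θ ∧ (∀ X ∈ 𝔞, IsTangent ℓ α X) ∧
    (∀ X Y : 𝔞, ∃ Z : 𝔞, Z.val = X.val * Y.val - Y.val * X.val ∧
      (Θ Z).val = (Θ X).val * (Θ Y).val - (Θ Y).val * (Θ X).val) ∧
    ∀ (σ : G) (X : 𝔞), ∃ Z : 𝔞, Z.val = α σ * X.val * α σ⁻¹ ∧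
      (Θ Z).val = ρ σ * (Θ X).val * ρ σ⁻¹

end representations

section hodge

/-- the smallest rational Lie algebra of matrices whose complexification contains `A` -/
def rationalLieAlgebra {n : ℕ} (A : Matrix (Fin n) (Fin n) ℂ) :
    Submodule ℚ (Matrix (Fin n) (Fin n) ℚ) :=
  sInf {𝔟 | (∀ X ∈ 𝔟, ∀ Y ∈ 𝔟, X * Y - Y * X ∈ 𝔟) ∧
    A ∈ Submodule.span ℂ {Z | ∃ Y ∈ 𝔟, Z = matrixOver ℂ Y}}

/-- There are a Lie subalgebra `𝔞` of the Lie algebra of the Mumford-Tate group of the Hodge structure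
with the operator `hA` and a surjective homomorphism `Θ` of rational Lie algebras from `𝔞` to the Lie
algebra of the form `J` which is compatible with (all rational coordinates of) the operators `hA` and
`h`, acting by commutators. -/
def IsHodgeRelated {N n : ℕ} (J : Matrix (Fin N) (Fin N) ℚ) (h : Matrix (Fin N) (Fin N) ℂ)
    (hA : Matrix (Fin n) (Fin n) ℂ) : Prop :=
  ∃ (𝔞 : Submodule ℚ (Matrix (Fin n) (Fin n) ℚ)) (Θ : 𝔞 →ₗ[ℚ] lieAlgebra J),
    Function.Surjective Θ ∧ (∀ X ∈ 𝔞, X ∈ rationalLieAlgebra hA) ∧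
    (∀ X Y : 𝔞, ∃ Z : 𝔞, Z.val = X.val * Y.val - Y.val * X.val ∧
      (Θ Z).val = (Θ X).val * (Θ Y).val - (Θ Y).val * (Θ X).val) ∧
    ∀ (f : ℂ →ₗ[ℚ] ℚ) (X : 𝔞), ∃ Z : 𝔞, Z.val = hA.map f * X.val - X.val * hA.map f ∧
      (Θ Z).val = h.map f * (Θ X).val - (Θ X).val * h.map f

/-- the characteristic polynomial of the operator `φ` on the Lie algebra of the form `J` divides the one
of the operator `ψ` on the space of all matrices of size `n` -/
def PolynomialDivides {F : Type} [Field F] {N n : ℕ} (J : Matrix (Fin N) (Fin N) F)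
    (φ : Matrix (Fin N) (Fin N) F → Matrix (Fin N) (Fin N) F)
    (ψ : Matrix (Fin n) (Fin n) F → Matrix (Fin n) (Fin n) F) : Prop :=
  ∀ (f : Module.End F (lieAlgebra J)) (g : Module.End F (Matrix (Fin n) (Fin n) F)),
    (∀ X, (f X).val = φ X.val) → (∀ Y, g Y = ψ Y) → LinearMap.charpoly f ∣ LinearMap.charpoly g

end hodge

section conjecture

variable {X : Type} {n : X → ℕ}

/-- families of matrices of the sizes `n x`, and a number -/
abbrev Families (F : Type) [Field F] {X : Type} (n : X → ℕ) : Type :=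
  (∀ x, Matrix (Fin (n x)) (Fin (n x)) F) × F

/-- the commutator of two families -/
def commutator {F : Type} [Field F] (Z W : Families F n) : Families F n :=
  (fun x => Z.1 x * W.1 x - W.1 x * Z.1 x, 0)

/-- the rational families as families over `F` -/
def familyOver (F : Type) [Field F] [Algebra ℚ F] (Z : Families ℚ n) : Families F n :=
  (fun x => (Z.1 x).map (algebraMap ℚ F), algebraMap ℚ F Z.2)

/-- the extension of scalars of a rational subspace: the span of its elements over `F` -/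
def extension (F : Type) [Field F] [Algebra ℚ F] (𝔞 : Submodule ℚ (Families ℚ n)) :
    Submodule F (Families F n) :=
  Submodule.span F {Z | ∃ Y ∈ 𝔞, Z = familyOver F Y}

/-- the smallest rational Lie algebra whose complexification contains the family of operators `h` and
the number one (for the motive `ℚ(-1)`) -/
def mumfordTateLieAlgebra (h : ∀ x, Matrix (Fin (n x)) (Fin (n x)) ℂ) :
    Submodule ℚ (Families ℚ n) :=
  sInf {𝔞 | (∀ Z ∈ 𝔞, ∀ W ∈ 𝔞, commutator Z W ∈ 𝔞) ∧ ((h, (1 : ℂ)) : Families ℂ n) ∈ extension ℂ 𝔞}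

variable {G : Type} [Group G]

/-- the family and the number are in the Lie algebra of the image of `G`: the limit of
`(ρ x (σ m) - 1) / ℓ ^ m` and `(κ (σ m) - 1) / ℓ ^ m` for elements `σ m` of `G` -/
def IsInGaloisLieAlgebra {ℓ : ℕ} [Fact ℓ.Prime]
    (ρ : ∀ x, G →* Matrix (Fin (n x)) (Fin (n x)) ℚ_[ℓ]) (κ : G →* ℚ_[ℓ])
    (Z : Families ℚ_[ℓ] n) : Prop :=
  ∃ σ : ℕ → G,
    (∀ x, Tendsto (fun m : ℕ => ((ℓ : ℚ_[ℓ]) ^ m)⁻¹ • (ρ x (σ m) - 1)) atTop (𝓝 (Z.1 x))) ∧
    Tendsto (fun m : ℕ => ((ℓ : ℚ_[ℓ]) ^ m)⁻¹ * (κ (σ m) - 1)) atTop (𝓝 Z.2)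

/-- the Mumford-Tate conjecture for Lie algebras -/
def MumfordTate {ℓ : ℕ} [Fact ℓ.Prime]
    (ρ : ∀ x, G →* Matrix (Fin (n x)) (Fin (n x)) ℚ_[ℓ]) (κ : G →* ℚ_[ℓ])
    (h : ∀ x, Matrix (Fin (n x)) (Fin (n x)) ℂ) : Prop :=
  ∀ Z : Families ℚ_[ℓ] n,
    IsInGaloisLieAlgebra ρ κ Z ↔ Z ∈ extension ℚ_[ℓ] (mumfordTateLieAlgebra h)

end conjecture

section sums

variable {ι ι' : Type} {N : ι → ℕ} {d : ι' → ℕ}

/-- two families of operators as one family -/
def sumOperators {F : Type} [Field F] (A : ∀ i, Matrix (Fin (N i)) (Fin (N i)) F)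
    (B : ∀ s, Matrix (Fin (d s)) (Fin (d s)) F) :
    ∀ x : ι ⊕ ι', Matrix (Fin (Sum.elim N d x)) (Fin (Sum.elim N d x)) F := fun x =>
  match x with
  | Sum.inl i => A i
  | Sum.inr s => B s

/-- two families of representations as one family -/
def sumRepresentations {G : Type} [Group G] {F : Type} [Field F]
    (ρ : ∀ i, G →* Matrix (Fin (N i)) (Fin (N i)) F)
    (α : ∀ s, G →* Matrix (Fin (d s)) (Fin (d s)) F) :
    ∀ x : ι ⊕ ι', G →* Matrix (Fin (Sum.elim N d x)) (Fin (Sum.elim N d x)) F := fun x =>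
  match x with
  | Sum.inl i => ρ i
  | Sum.inr s => α s

/-- the operators `h i - w i / 2` -/
noncomputable def centered (w : ι → ℕ) (h : ∀ i, Matrix (Fin (N i)) (Fin (N i)) ℂ) :
    ∀ i, Matrix (Fin (N i)) (Fin (N i)) ℂ :=
  fun i => h i - ((w i : ℂ) / 2) • (1 : Matrix (Fin (N i)) (Fin (N i)) ℂ)

/-- The Mumford-Tate group of the family with the forms `J` is as large as possible: the operators
`h i - w i / 2` are in the Lie algebras of the forms, and every rational Lie algebra of families of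
matrices whose complexification contains this family contains the Lie algebras of the forms. -/
def IsHodgeGeneric (J : ∀ i, Matrix (Fin (N i)) (Fin (N i)) ℚ) (w : ι → ℕ)
    (h : ∀ i, Matrix (Fin (N i)) (Fin (N i)) ℂ) : Prop :=
  (∀ i, centered w h i ∈ lieAlgebra (matrixOver ℂ (J i))) ∧
  ∀ 𝔞 : Submodule ℚ (∀ i, Matrix (Fin (N i)) (Fin (N i)) ℚ),
    (∀ X ∈ 𝔞, ∀ Y ∈ 𝔞, (fun i => X i * Y i - Y i * X i) ∈ 𝔞) →
    centered w h ∈ Submodule.span ℂ {Z : ∀ i, Matrix (Fin (N i)) (Fin (N i)) ℂ |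
      ∃ X ∈ 𝔞, Z = fun i => matrixOver ℂ (X i)} →
    ∀ X, (∀ i, X i ∈ lieAlgebra (J i)) → X ∈ 𝔞

/-- The Mumford-Tate conjecture holds for the family `ρ` with the operators `h`, and for ALL finite
families `α` of continuous representations with operators `hA`, each of which is unrelated (on both
sides) to all `ρ i`, `h i` or potentially abelian, it holds for the sum of `ρ` and `α` if and only if it
holds for `α`. -/
def MumfordTateForSums {G : Type} [Group G] [TopologicalSpace G]
    (J : ∀ i, Matrix (Fin (N i)) (Fin (N i)) ℚ) (ℓ : ℕ) [Fact ℓ.Prime] (κ : G →* ℚ_[ℓ])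
    (ρ : ∀ i, G →* Matrix (Fin (N i)) (Fin (N i)) ℚ_[ℓ])
    (h : ∀ i, Matrix (Fin (N i)) (Fin (N i)) ℂ) : Prop :=
  MumfordTate ρ κ h ∧ ∀ (ι' : Type) [Fintype ι'] (d : ι' → ℕ)
    (α : ∀ s, G →* Matrix (Fin (d s)) (Fin (d s)) ℚ_[ℓ])
    (hA : ∀ s, Matrix (Fin (d s)) (Fin (d s)) ℂ), (∀ s, Continuous (α s)) →
    (∀ s, (∀ i, ¬ IsRelated ℓ (J i) (ρ i) (α s) ∧ ¬ IsHodgeRelated (J i) (h i) (hA s)) ∨
      IsPotentiallyAbelian (α s)) →
    (MumfordTate (sumRepresentations ρ α) κ (sumOperators h hA) ↔ MumfordTate α κ hA)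

end sums

/-- **The Mumford-Tate conjecture for sums with arbitrary unrelated motives and motives of potentially
abelian type, for 100 percent of the primes and for all primes at which the first motives have
semisimple realizations with scalar commutants, from a full Lie algebra at one prime; and the criteria
for unrelated motives.** -/
theorem result {K : Type} [Field K] [NumberField K] {ι : Type} [Fintype ι] {N : ι → ℕ}
    (S : Set (HeightOneSpectrum (𝓞 K))) (hS : S.Finite)
    (κ : ∀ (ℓ : ℕ) [Fact ℓ.Prime], AbsoluteGaloisGroup K →* ℚ_[ℓ])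
    (hκ : ∀ (ℓ : ℕ) [Fact ℓ.Prime], IsInverseCyclotomic S ℓ (κ ℓ))
    (J : ∀ i, Matrix (Fin (N i)) (Fin (N i)) ℚ) (hJ : ∀ i, IsAdmissible (J i))
    (w : ι → ℕ) (hw : ∀ i, (J i)ᵀ = J i → w i = 0) (P : ι → HeightOneSpectrum (𝓞 K) → ℚ[X])
    (ρ : ∀ (i : ι) (ℓ : ℕ) [Fact ℓ.Prime],
      AbsoluteGaloisGroup K →* Matrix (Fin (N i)) (Fin (N i)) ℚ_[ℓ])
    (hρ : ∀ (i : ι) (ℓ : ℕ) [Fact ℓ.Prime], IsRealization S ℓ (κ ℓ) (J i) (w i) (P i) (ρ i ℓ))
    (h : ∀ i, Matrix (Fin (N i)) (Fin (N i)) ℂ) (hgen : IsHodgeGeneric J w h)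
    (ℓ₀ : ℕ) [Fact ℓ₀.Prime] (hℓ₀ : ∀ i, IsSuitable ℓ₀ (J i))
    (hfull : HasFullLieAlgebra ℓ₀ J (fun i => ρ i ℓ₀)) :
    (HasDensityZero {ℓ | ∃ _ : Fact ℓ.Prime,
      ¬ MumfordTateForSums J ℓ (κ ℓ) (fun i => ρ i ℓ) h} ∧
    ∀ (ℓ : ℕ) [Fact ℓ.Prime], (∀ i, IsSemisimple (ρ i ℓ)) → (∀ i, HasScalarCommutants (ρ i ℓ)) →
      MumfordTateForSums J ℓ (κ ℓ) (fun i => ρ i ℓ) h) ∧
    (∀ (ℓ : ℕ) [Fact ℓ.Prime] (i : ι) (n : ℕ)
      (α : AbsoluteGaloisGroup K →* Matrix (Fin n) (Fin n) ℚ_[ℓ]),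
      IsRelated ℓ (J i) (ρ i ℓ) α → ∀ σ, PolynomialDivides (matrixOver ℚ_[ℓ] (J i))
        (fun X => ρ i ℓ σ * X * ρ i ℓ σ⁻¹) (fun Y => α σ * Y * α σ⁻¹)) ∧
    ∀ (i : ι) (n : ℕ) (hA : Matrix (Fin n) (Fin n) ℂ), IsHodgeRelated (J i) (h i) hA →
      PolynomialDivides (matrixOver ℂ (J i)) (fun X => h i * X - X * h i)
        (fun Y => hA * Y - Y * hA) := by
  classical
  have hkind : ∀ i, ∃ kd : Pool.Agent.R932.PO.Kind, Pool.Agent.R932.PO.Fits kd (J i) ∧
      Pool.Agent.R932.PO.Allows kd (N i) ℓ₀ (Pool.Agent.R932.PO.JL J ℓ₀ i) := by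
    intro i
    rcases (hJ i).2 with h | h | h
    · exact ⟨.sym, h, (hℓ₀ i).1 h.1⟩
    · exact ⟨.odd, h, (hℓ₀ i).2.1 h.1 h.2.1⟩
    · exact ⟨.even, h, (hℓ₀ i).2.2 h.1 h.2.1⟩
  choose kd hfit hal using hkind
  have h1 := Pool.Agent.U190.JT.mt_main2 hS J hfit (fun i => (hJ i).1) hw κ (fun ℓ _ => (hκ ℓ).1)
    (fun ℓ _ => (hκ ℓ).2) ρ (fun i ℓ _ => (hρ i ℓ).1) (fun i ℓ _ => (hρ i ℓ).2.1)
    (fun i ℓ _ => (hρ i ℓ).2.2) h hgen ℓ₀ hal hfull
  refine ⟨h1, fun ℓ _ i n α hrel σ f g => ?_, fun i n hA hrel => ?_⟩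
  · exact Pool.Agent.U190.JT.related_dvd hrel σ f g
  · exact Pool.Agent.U190.JT.fit_of_hrel hrel

end Pool.Agent.Results.MP_de8692_ag.SumsWithUnrelatedMotives
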